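import Pool.Agent.L7h31.IE.Stm

/-!
# Project IE, part MOM: points on the moment curve
-/

set_option autoImplicit false

namespace Pool.Agent.L7h47.IE

open Pool.Agent.L7h31.IE
open Polynomial

/-- the moment curve -/
noncomputable def ga (d : ℕ) (s : ℝ) : E d := WithLp.toLp 2 (fun i : Fin d => s ^ ((i : ℕ) + 1))

theorem ga_apply (d : ℕ) (s : ℝ) (i : Fin d) : ga d s i = s ^ ((i : ℕ) + 1) := rfl

theorem ga_inj {d : ℕ} (hd : 1 ≤ d) : Function.Injective (ga d) := by
  intro s s' h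
  have h1 := congrArg (fun y : E d => y ⟨0, hd⟩) h
  simpa [ga_apply] using h1

/-- the parameters -/
def si {k : ℕ} (c : Fin k × Bool) : ℤ := 2 * (c.1 : ℕ) + (if c.2 then 1 else 0)

theorem si_inj {k : ℕ} : Function.Injective (si (k := k)) := by
  rintro ⟨j, b⟩ ⟨j', b'⟩ h
  unfold si at h
  have hj : (j : ℕ) = (j' : ℕ) ∧ b = b' := by
    cases b <;> cases b' <;> simp at h ⊢ <;> omega
  exact Prod.ext (Fin.ext hj.1) hj.2

/-- the functional of a polynomial -/
noncomputable def fn (d : ℕ) (q : ℝ[X]) : E d →ᵃ[ℝ] ℝ :=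
  (∑ i : Fin d, q.coeff ((i : ℕ) + 1) • (EuclideanSpace.proj (𝕜 := ℝ) i : E d →L[ℝ] ℝ).toLinearMap).toAffineMap +
    AffineMap.const ℝ (E d) (q.coeff 0)

theorem fn_ga {d : ℕ} {q : ℝ[X]} (hq : q.natDegree ≤ d) (s : ℝ) : fn d q (ga d s) = q.eval s := by
  rw [eval_eq_sum_range' (Nat.lt_succ_of_le hq) s, Finset.sum_range_succ']
  unfold fn
  simp [ga_apply, Finset.sum_range]

theorem sum_poly {d : ℕ} {ι : Type} (s : Finset ι) (w : ι → ℝ) (nd : ι → ℝ) (h0 : ∑ y ∈ s, w y = 0)
    (h1 : ∑ y ∈ s, w y • ga d (nd y) = 0) {q : ℝ[X]} (hq : q.natDegree ≤ d) :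
    ∑ y ∈ s, w y * q.eval (nd y) = 0 := by
  have h2 : ∀ y ∈ s, w y * q.eval (nd y) = ∑ i ∈ Finset.range (d + 1), q.coeff i * (w y * nd y ^ i) := by
    intro y _
    rw [eval_eq_sum_range' (Nat.lt_succ_of_le hq), Finset.mul_sum]
    exact Finset.sum_congr rfl fun i _ => by ring
  rw [Finset.sum_congr rfl h2, Finset.sum_comm]
  refine Finset.sum_eq_zero fun i hi => ?_
  rw [← Finset.mul_sum]
  have h3 : ∑ y ∈ s, w y * nd y ^ i = 0 := by
    rcases i with _ | i
    · simpa using h0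
    · have hi' : i < d := by
        rw [Finset.mem_range] at hi
        omega
      have h4 := congrArg (fun y : E d => y ⟨i, hi'⟩) h1
      simpa [ga_apply] using h4
  rw [h3, mul_zero]

theorem genPos_ga {d : ℕ} (X : Finset (E d)) (hX : ∀ y ∈ X, ∃ s, y = ga d s) : GenPos X := by
  classical
  intro S hS hc
  rw [affineIndependent_iff]
  intro s w h0 h1 e he
  have h2 : ∀ y : S, ∃ t, y.1 = ga d t := fun y => hX y.1 (hS y.2)
  choose nd hnd using h2
  set q : ℝ[X] := ∏ y ∈ s.erase e, (Polynomial.X - C (nd y)) with hq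
  have hdeg : q.natDegree ≤ d := by
    rw [hq, natDegree_prod_of_monic _ _ fun y _ => monic_X_sub_C _]
    simp only [natDegree_X_sub_C, Finset.sum_const, smul_eq_mul, mul_one]
    have h3 := Finset.card_erase_lt_of_mem he
    have h4 : s.card ≤ S.card := by
      have := Finset.card_le_univ s
      simpa using this
    omega
  have h1' : ∑ y ∈ s, w y • ga d (nd y) = 0 := by
    rw [← h1]
    exact Finset.sum_congr rfl fun y _ => by rw [← hnd]
  have h3 := sum_poly s w nd h0 h1' hdeg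
  rw [Finset.sum_eq_single_of_mem e he] at h3
  · rcases mul_eq_zero.1 h3 with h | h
    · exact h
    · exfalso
      rw [hq, eval_prod, Finset.prod_eq_zero_iff] at h
      obtain ⟨y, hy, h4⟩ := h
      rw [eval_sub, eval_X, eval_C, sub_eq_zero] at h4
      refine (Finset.mem_erase.1 hy).1 (Subtype.ext ?_)
      rw [hnd y, hnd e, h4]
  · intro y hy hye
    have h5 : q.eval (nd y) = 0 := by
      rw [hq, eval_prod]
      refine Finset.prod_eq_zero (Finset.mem_erase.2 ⟨hye, hy⟩) ?_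
      simp
    rw [h5, mul_zero]

/-- the polynomial of the facet -/
noncomputable def qI {k : ℕ} (I : Finset (Fin k)) : ℝ[X] :=
  -∏ j ∈ I, ((Polynomial.X - C (2 * ((j : ℕ) : ℝ))) * (Polynomial.X - C (2 * ((j : ℕ) : ℝ) + 1)))

theorem qI_deg {k : ℕ} (I : Finset (Fin k)) : (qI I).natDegree ≤ 2 * I.card := by
  unfold qI
  rw [natDegree_neg, natDegree_prod_of_monic _ _ fun j _ => (monic_X_sub_C _).mul (monic_X_sub_C _)]
  have : ∀ j ∈ I, ((Polynomial.X - C (2 * ((j : ℕ) : ℝ))) * (Polynomial.X - C (2 * ((j : ℕ) : ℝ) + 1))).natDegree = 2 := by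
    intro j _
    rw [(monic_X_sub_C _).natDegree_mul (monic_X_sub_C _), natDegree_X_sub_C, natDegree_X_sub_C]
  rw [Finset.sum_congr rfl this]
  simp [mul_comm]

theorem qI_eval {k : ℕ} (I : Finset (Fin k)) (s : ℝ) :
    (qI I).eval s = -∏ j ∈ I, ((s - 2 * ((j : ℕ) : ℝ)) * (s - (2 * ((j : ℕ) : ℝ) + 1))) := by
  unfold qI
  rw [eval_neg, eval_prod]
  simp

theorem s_MOM : S_MOM := by
  intro p k hp
  refine ⟨fun c => ga (2 * p) ((si c : ℤ) : ℝ), ?_, ?_, ?_⟩
  · intro c c' h
    exact si_inj (Int.cast_injective (ga_inj (by omega) h))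
  · intro X hX
    refine genPos_ga X fun y hy => ?_
    obtain ⟨c, hc⟩ := (hX y).1 hy
    exact ⟨_, hc⟩
  · intro I hI
    have hd : (qI I).natDegree ≤ 2 * p := by
      rw [← hI]
      exact qI_deg I
    refine ⟨fn (2 * p) (qI I), fun c hc => ?_, fun c hc => ?_, ga (2 * p) (-1), ?_⟩
    · rw [fn_ga hd, qI_eval, neg_eq_zero]
      refine Finset.prod_eq_zero hc ?_
      unfold si
      rcases c with ⟨j, b⟩
      cases b <;> simp
    · rw [fn_ga hd, qI_eval, neg_lt_zero]
      refine Finset.prod_pos fun j hj => ?_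
      have hne : c.1 ≠ j := fun h => hc (h ▸ hj)
      have h1 : ((c.1 : ℕ) : ℤ) ≠ ((j : ℕ) : ℤ) := fun h => hne (Fin.ext (by exact_mod_cast h))
      have h2 : (1 : ℤ) < si c - 2 * (j : ℕ) ∨ si c - 2 * (j : ℕ) < 0 := by
        unfold si
        rcases lt_or_gt_of_ne h1 with h | h
        · right
          split_ifs <;> omega
        · left
          split_ifs <;> omega
      have h3 : (0 : ℤ) < (si c - 2 * (j : ℕ)) * (si c - (2 * (j : ℕ) + 1)) := by
        rcases h2 with h | h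
        · exact mul_pos (by omega) (by omega)
        · exact mul_pos_of_neg_of_neg (by omega) (by omega)
      exact_mod_cast h3
    · rw [fn_ga hd, qI_eval, neg_ne_zero]
      refine Finset.prod_ne_zero_iff.2 fun j _ => ?_
      have hj : (0 : ℝ) ≤ ((j : ℕ) : ℝ) := Nat.cast_nonneg _
      exact mul_ne_zero (by linarith) (by linarith)

end Pool.Agent.L7h47.IE
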