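import Pool.Agent.L7h31.IE.Stm

/-!
# Project IE, part STACK: pyramids on facets
-/

set_option autoImplicit false

namespace Pool.Agent.L7h47.IE

open Pool.Agent.L7h31.IE
open Filter Topology

theorem exists_pos_lt {α : Type*} [Finite α] (f : α → ℝ) (hf : ∀ x, 0 < f x) :
    ∃ c, 0 < c ∧ ∀ x, c < f x := by
  rcases isEmpty_or_nonempty α with h | h
  · exact ⟨1, one_pos, fun x => isEmptyElim x⟩
  · obtain ⟨x₀, hx₀⟩ := Finite.exists_min f
    exact ⟨f x₀ / 2, half_pos (hf x₀), fun x => lt_of_lt_of_le (half_lt_self (hf x₀)) (hx₀ x)⟩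

variable {d : ℕ}

theorem aff_sub (f : E d →ᵃ[ℝ] ℝ) (x y : E d) : f x - f y = f.linear (x - y) := by
  have := f.linearMap_vsub x y
  simpa using this.symm

theorem aff_avg {ι : Type} [Fintype ι] (f : E d →ᵃ[ℝ] ℝ) (F : ι → E d) (hd : 1 ≤ d)
    (hι : Fintype.card ι = d) :
    f ((d : ℝ)⁻¹ • ∑ i, F i) = (d : ℝ)⁻¹ * ∑ i, f (F i) := by
  have hd0 : (d : ℝ) ≠ 0 := by
    have : (1 : ℝ) ≤ d := by exact_mod_cast hd
    positivity
  have key : ∀ y, f y = f.linear y + f 0 := by
    intro y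
    have := aff_sub f y 0
    rw [sub_zero] at this
    linarith
  rw [key, map_smul, map_sum, Finset.sum_congr rfl fun i _ => key (F i), Finset.sum_add_distrib,
    Finset.sum_const, Finset.card_univ, hι]
  simp only [smul_eq_mul, nsmul_eq_mul]
  field_simp

/-- dual functionals of affinely independent points -/
theorem dual_fn {ι : Type} [Fintype ι] {F : ι → E d} (hF : AffineIndependent ℝ F) :
    ∃ m : ι → (E d →ᵃ[ℝ] ℝ), (∀ i, m i (F i) = 1) ∧ ∀ i j, j ≠ i → m i (F j) = 0 := by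
  classical
  rw [affineIndependent_iff] at hF
  have hli : LinearIndependent ℝ (fun i => ((F i, 1) : E d × ℝ)) := by
    rw [linearIndependent_iff']
    intro s g hg i hi
    have h1 := congrArg Prod.fst hg
    have h2 := congrArg Prod.snd hg
    rw [Prod.fst_sum] at h1
    rw [Prod.snd_sum] at h2
    refine hF s g ?_ ?_ i hi
    · simpa using h2
    · simpa using h1
  obtain ⟨g, hg⟩ := LinearMap.exists_leftInverse_of_injective
    (Finsupp.linearCombination ℝ (fun i => ((F i, 1) : E d × ℝ))) (LinearMap.ker_eq_bot.2 hli)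
  have hg1 : ∀ j, g (F j, 1) = Finsupp.single j 1 := by
    intro j
    have h3 := LinearMap.congr_fun hg (Finsupp.single j (1 : ℝ))
    rw [LinearMap.comp_apply, Finsupp.linearCombination_single, one_smul] at h3
    exact h3
  let m : ι → (E d →ᵃ[ℝ] ℝ) := fun i =>
    ((Finsupp.lapply i ∘ₗ g) ∘ₗ (LinearMap.inl ℝ (E d) ℝ)).toAffineMap +
      AffineMap.const ℝ (E d) ((g (0, 1)) i)
  have hm : ∀ i y, m i y = g (y, 1) i := by
    intro i y
    have h4 : ((y, 1) : E d × ℝ) = (y, 0) + (0, 1) := by simp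
    rw [h4, map_add, Finsupp.add_apply]
    rfl
  refine ⟨m, fun i => ?_, fun i j hj => ?_⟩
  · rw [hm, hg1, Finsupp.single_eq_same]
  · rw [hm, hg1, Finsupp.single_eq_of_ne hj.symm]

theorem aff_cont (f : E d →ᵃ[ℝ] ℝ) : Continuous f := AffineMap.continuous_of_finiteDimensional f

/-- a face from an affine functional -/
theorem face_of (V : Finset (E d)) (A : Set (E d)) (φ : E d →ᵃ[ℝ] ℝ) (hA : A ⊆ (V : Set (E d)))
    {t : E d} (ht : t ∈ A) (h0 : ∀ y ∈ A, φ y = 0) (h1 : ∀ y ∈ V, y ∉ A → φ y < 0) : IsFace V A := by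
  refine ⟨LinearMap.toContinuousLinearMap φ.linear, fun x => ?_⟩
  have key : ∀ w, (LinearMap.toContinuousLinearMap φ.linear) w ≤ (LinearMap.toContinuousLinearMap φ.linear) x ↔
      φ w ≤ φ x := by
    intro w
    have h2 := aff_sub φ w x
    rw [map_sub] at h2
    show φ.linear w ≤ φ.linear x ↔ _
    constructor <;> intro h <;> linarith
  constructor
  · intro hx
    refine ⟨hA hx, fun w hw => (key w).2 ?_⟩
    rw [h0 x hx]
    by_cases hwA : w ∈ A
    · exact (h0 w hwA).le
    · exact (h1 w hw hwA).le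
  · rintro ⟨hx, h⟩
    by_contra hxA
    have h3 := (key t).1 (h t (hA ht))
    rw [h0 t ht] at h3
    exact absurd (h1 x hx hxA) (not_lt.2 h3)

theorem s_STACK : S_STACK := by
  classical
  intro d ι κ _ _ X F a hd hι hFX hF ha0 hane haneg hdiff
  have hd0 : (0 : ℝ) < d := by exact_mod_cast hd
  have hne : Nonempty ι := by
    rw [← Fintype.card_pos_iff]
    omega
  choose m hm1 hm0 using fun I => dual_fn (hF I)
  set cc : κ → E d := fun I => (d : ℝ)⁻¹ • ∑ i, F I i with hcc
  have hmc : ∀ I i, m I i (cc I) = (d : ℝ)⁻¹ := by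
    intro I i
    rw [hcc]
    simp only
    rw [aff_avg (m I i) (F I) hd hι, Finset.sum_eq_single_of_mem i (Finset.mem_univ i)
      (fun j _ hj => hm0 I i j hj), hm1, mul_one]
  have hac : ∀ I, a I (cc I) = 0 := by
    intro I
    rw [hcc]
    simp only
    rw [aff_avg (a I) (F I) hd hι, Finset.sum_eq_zero (fun i _ => ha0 I i), mul_zero]
  have hle : ∀ I, ∀ y ∈ X, a I y ≤ 0 := by
    intro I y hy
    by_cases h : ∃ i, y = F I i
    · obtain ⟨i, rfl⟩ := h
      exact (ha0 I i).le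
    · exact (haneg I y hy fun i hi => h ⟨i, hi⟩).le
  have hacn : ∀ I I', I ≠ I' → a I (cc I') < 0 := by
    intro I I' hII
    rw [hcc]
    simp only
    rw [aff_avg (a I) (F I') hd hι]
    obtain ⟨i, hi⟩ := hdiff I I' hII
    refine mul_neg_of_pos_of_neg (inv_pos.2 hd0) ?_
    refine Finset.sum_neg' (fun j _ => hle I _ (hFX I' j)) ⟨i, Finset.mem_univ i, ?_⟩
    exact haneg I _ (hFX I' i) hi
  -- the constants
  obtain ⟨c1, hc1, hc1'⟩ := exists_pos_lt
    (fun q : {q : κ × X // ∀ i, (q.2 : E d) ≠ F q.1 i} => -a q.1.1 (q.1.2 : E d))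
    (fun q => neg_pos.2 (haneg q.1.1 _ q.1.2.2 q.2))
  obtain ⟨c2, hc2, hc2'⟩ := exists_pos_lt
    (fun q : {q : κ × κ // q.1 ≠ q.2} => -a q.1.1 (cc q.1.2))
    (fun q => neg_pos.2 (hacn _ _ q.2))
  set c0 := min c1 c2 with hc0
  have hc0p : 0 < c0 := lt_min hc1 hc2
  have hX0 : ∀ I, ∀ y ∈ X, (∀ i, y ≠ F I i) → a I y < -c0 := by
    intro I y hy h
    have h1 := hc1' ⟨(I, ⟨y, hy⟩), h⟩
    have h2 : c0 ≤ c1 := min_le_left _ _
    simp only at h1
    linarith
  have hC0 : ∀ I I', I ≠ I' → a I (cc I') < -c0 := by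
    intro I I' h
    have h1 := hc2' ⟨(I, I'), h⟩
    have h2 : c0 ≤ c2 := min_le_right _ _
    simp only at h1
    linarith
  -- the bound
  set R : ℝ := ∑ y ∈ X, ‖y‖ + ∑ I, (‖cc I‖ + 1) with hR
  have hRX : ∀ y ∈ X, y ∈ Metric.closedBall (0 : E d) R := by
    intro y hy
    rw [mem_closedBall_zero_iff, hR]
    have h1 := Finset.single_le_sum (f := fun y : E d => ‖y‖) (fun y _ => norm_nonneg y) hy
    have h2 : 0 ≤ ∑ I, (‖cc I‖ + 1) := Finset.sum_nonneg fun I _ => by positivity
    linarith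
  have hRB : ∀ I, ∀ y ∈ Metric.ball (cc I) 1, y ∈ Metric.closedBall (0 : E d) R := by
    intro I y hy
    rw [mem_closedBall_zero_iff, hR]
    rw [mem_ball_iff_norm] at hy
    have h1 := Finset.single_le_sum (f := fun I => ‖cc I‖ + 1) (fun I _ => by positivity)
      (Finset.mem_univ I)
    have h2 : 0 ≤ ∑ y ∈ X, ‖y‖ := Finset.sum_nonneg fun y _ => norm_nonneg y
    have h3 : ‖y‖ ≤ ‖y - cc I‖ + ‖cc I‖ := by
      have := norm_add_le (y - cc I) (cc I)
      rwa [sub_add_cancel] at this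
    linarith
  have hM0 : ∀ q : κ × ι, ∃ C, ∀ y ∈ Metric.closedBall (0 : E d) R, ‖m q.1 q.2 y‖ ≤ C := fun q =>
    (isCompact_closedBall (0 : E d) R).exists_bound_of_continuousOn (aff_cont _).continuousOn
  choose B hB using hM0
  set M : ℝ := 1 + ∑ q, |B q| with hMdef
  have hM : ∀ I i, ∀ y ∈ Metric.closedBall (0 : E d) R, |m I i y| ≤ M := by
    intro I i y hy
    have h1 := hB (I, i) y hy
    have h2 := Finset.single_le_sum (f := fun q : κ × ι => |B q|) (fun q _ => abs_nonneg _)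
      (Finset.mem_univ (I, i))
    have h3 := le_abs_self (B (I, i))
    rw [Real.norm_eq_abs] at h1
    simp only at h1 h2
    linarith
  have hMp : 0 < M := by
    have : 0 ≤ ∑ q, |B q| := Finset.sum_nonneg fun q _ => abs_nonneg _
    linarith
  set ε : ℝ := c0 / (2 * d) / M with hε
  have hεp : 0 < ε := by positivity
  have hεM : ε * M = c0 / (2 * d) := by
    rw [hε]
    field_simp
  -- the open sets
  set O : κ → Set (E d) := fun I => {s | s ∈ Metric.ball (cc I) 1} ∩ {s | a I s < ε} ∩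
    (⋂ i, {s | 1 / (2 * (d : ℝ)) < m I i s}) ∩ ⋂ (I' : κ) (_ : I' ≠ I), {s | a I' s < -c0} with hO
  have hOo : ∀ I, IsOpen (O I) := by
    intro I
    refine IsOpen.inter (IsOpen.inter (IsOpen.inter Metric.isOpen_ball ?_) ?_) ?_
    · exact isOpen_lt (aff_cont _) continuous_const
    · exact isOpen_iInter_of_finite fun i => isOpen_lt continuous_const (aff_cont _)
    · exact isOpen_iInter_of_finite fun I' => isOpen_iInter_of_finite fun _ =>
        isOpen_lt (aff_cont _) continuous_const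
  have hOc : ∀ I, cc I ∈ O I := by
    intro I
    refine ⟨⟨⟨Metric.mem_ball_self one_pos, ?_⟩, ?_⟩, ?_⟩
    · show a I (cc I) < ε
      rw [hac]
      exact hεp
    · refine Set.mem_iInter.2 fun i => ?_
      show 1 / (2 * (d : ℝ)) < m I i (cc I)
      rw [hmc, one_div, inv_lt_inv₀ (by positivity) hd0]
      linarith
    · exact Set.mem_iInter.2 fun I' => Set.mem_iInter.2 fun h => hC0 I' I h
  refine ⟨fun I => O I ∩ {s | 0 < a I s}, fun I => (hOo I).inter (isOpen_lt continuous_const (aff_cont _)),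
    fun I => ?_, ?_⟩
  · -- nonempty
    obtain ⟨z, hz⟩ := hane I
    obtain ⟨w, hw⟩ : ∃ w, 0 < (a I).linear w := by
      obtain ⟨i⟩ := hne
      have h1 := aff_sub (a I) z (F I i)
      rw [ha0, sub_zero] at h1
      rw [h1] at hz
      rcases lt_or_gt_of_ne hz with h | h
      · exact ⟨-(z - F I i), by rw [map_neg]; linarith⟩
      · exact ⟨_, h⟩
    have h2 : Tendsto (fun δ : ℝ => cc I + δ • w) (𝓝[>] 0) (𝓝 (cc I)) := by
      have h3 : Continuous (fun δ : ℝ => cc I + δ • w) := by fun_prop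
      have h4 := h3.tendsto 0
      simp only [zero_smul, add_zero] at h4
      exact h4.mono_left nhdsWithin_le_nhds
    have h5 := h2.eventually ((hOo I).mem_nhds (hOc I))
    have h6 : ∀ᶠ δ : ℝ in 𝓝[>] 0, 0 < δ := eventually_mem_nhdsWithin
    obtain ⟨δ, h7, h8⟩ := (h5.and h6).exists
    refine ⟨cc I + δ • w, h7, ?_⟩
    show 0 < a I (cc I + δ • w)
    have h9 := aff_sub (a I) (cc I + δ • w) (cc I)
    rw [hac, sub_zero, add_sub_cancel_left, map_smul, smul_eq_mul] at h9
    rw [h9]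
    exact mul_pos h8 hw
  · intro t ht V hV I i
    have hti := ht I
    obtain ⟨⟨⟨⟨hb, hae⟩, hm2⟩, ha2⟩, hap⟩ := hti
    have hm3 : 1 / (2 * (d : ℝ)) < m I i (t I) := Set.mem_iInter.1 hm2 i
    have hap' : 0 < a I (t I) := hap
    have hae' : a I (t I) < ε := hae
    have hm3p : 0 < m I i (t I) := lt_trans (by positivity) hm3
    set φ : E d →ᵃ[ℝ] ℝ := (m I i (t I)) • a I - (a I (t I)) • m I i with hφ
    have hφ' : ∀ y, φ y = m I i (t I) * a I y - a I (t I) * m I i y := fun y => rfl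
    have hsm : ∀ y, y ∈ Metric.closedBall (0 : E d) R → a I y < -c0 → φ y < 0 := by
      intro y hy h
      rw [hφ']
      have h1 := hM I i y hy
      have h2 : m I i (t I) * a I y < -(c0 / (2 * d)) := by
        have h3 : m I i (t I) * a I y ≤ m I i (t I) * (-c0) :=
          mul_le_mul_of_nonneg_left h.le hm3p.le
        have h4 : 1 / (2 * (d : ℝ)) * c0 < m I i (t I) * c0 := mul_lt_mul_of_pos_right hm3 hc0p
        have h5 : 1 / (2 * (d : ℝ)) * c0 = c0 / (2 * d) := by ring
        linarith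
      have h6 : -(a I (t I) * m I i y) ≤ ε * M := by
        have h7 : -(a I (t I) * m I i y) = a I (t I) * (-m I i y) := by ring
        rw [h7]
        calc a I (t I) * (-m I i y) ≤ a I (t I) * M :=
              mul_le_mul_of_nonneg_left ((neg_le_abs _).trans h1) hap'.le
          _ ≤ ε * M := mul_le_mul_of_nonneg_right hae'.le hMp.le
      linarith
    refine face_of V _ φ ?_ (Set.mem_insert (t I) _) ?_ ?_
    · rintro y (rfl | ⟨j, hj, rfl⟩)
      · exact (hV _).2 (Or.inr ⟨I, rfl⟩)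
      · exact (hV _).2 (Or.inl (hFX I j))
    · rintro y (rfl | ⟨j, hj, rfl⟩)
      · rw [hφ']
        ring
      · rw [hφ', ha0, hm0 I i j hj]
        ring
    · intro y hy hyA
      have hyt : y ≠ t I := fun h => hyA (Or.inl h)
      have hyF : ∀ j, j ≠ i → y ≠ F I j := fun j hj h => hyA (Or.inr ⟨j, hj, h⟩)
      rcases (hV y).1 hy with hX | ⟨I', rfl⟩
      · by_cases h : y = F I i
        · rw [h, hφ', ha0, hm1]
          linarith
        · refine hsm y (hRX y hX) (hX0 I y hX fun j => ?_)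
          by_cases hj : j = i
          · rw [hj]
            exact h
          · exact hyF j hj
      · have hI : I ≠ I' := fun h => hyt (by rw [h])
        obtain ⟨⟨⟨⟨hb', -⟩, -⟩, ha3⟩, -⟩ := ht I'
        refine hsm _ (hRB I' _ hb') ?_
        exact Set.mem_iInter.1 (Set.mem_iInter.1 ha3 I) hI

end Pool.Agent.L7h47.IE
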